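import Mathlib

set_option autoImplicit false

/-!
# Maximum `p`-singular families in `GL_{n,q}` that are not double-translates

If a finite group has a central element `z ≠ 1` of order prime to `p`, then the elements of a
`p`-singular family can be multiplied by arbitrary powers of `z`.  So for `q ≥ 3` there are maximum
`p`-singular families in `GL_{n,q}` that are not double-translates of Sylow `p`-subgroups.
-/

namespace Pool.Agent.Results.MP_020c1a_co.NotTranslate

/-- `F` is a `p`-singular family: the order of `g h⁻¹` is divisible by `p` for all distinct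
`g, h ∈ F`. -/
def PSingular {G : Type*} [Group G] (p : ℕ) (F : Set G) : Prop :=
  ∀ g ∈ F, ∀ h ∈ F, g ≠ h → p ∣ orderOf (g * h⁻¹)

/-- `F` is a maximum (extremal) `p`-singular family. -/
def IsMaximum {G : Type*} [Group G] (p : ℕ) (F : Set G) : Prop :=
  PSingular p F ∧ ∀ F' : Set G, PSingular p F' → F'.ncard ≤ F.ncard

/-- `F = g P h` for some `g, h ∈ G` and some Sylow `p`-subgroup `P`. -/
def IsDoubleTranslate {G : Type*} [Group G] (p : ℕ) (F : Set G) : Prop :=
  ∃ (P : Sylow p G) (g h : G), F = (fun s => g * s * h) '' (P : Set G)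

variable {G : Type*} [Group G] [Finite G]

lemma exists_isMaximum (p : ℕ) : ∃ F : Set G, IsMaximum p F := by
  have : Nonempty {F : Set G // PSingular p F} := ⟨⟨∅, fun g hg => absurd hg (by simp)⟩⟩
  obtain ⟨F, hF⟩ := Finite.exists_max (fun F : {F : Set G // PSingular p F} => F.1.ncard)
  exact ⟨F.1, F.2, fun F' hF' => hF ⟨F', hF'⟩⟩

/-- **Theorem for groups.** -/
theorem exists_not_translate (p : ℕ) [hp : Fact p.Prime] (z : G) (hz : ∀ g : G, Commute z g)
    (hz1 : z ≠ 1) (hzp : (orderOf z).Coprime p) (hG : p ∣ Nat.card G) :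
    ∃ F : Set G, IsMaximum p F ∧ ¬ IsDoubleTranslate p F := by
  classical
  obtain ⟨F₀, hF₀⟩ := exists_isMaximum (G := G) p
  by_cases hT : IsDoubleTranslate p F₀
  · obtain ⟨P, g, h, hF₀P⟩ := hT
    have hinj : Function.Injective (fun s => g * s * h) := by
      intro a b hab
      simpa using hab
    have hcard : F₀.ncard = (P : Set G).ncard := by
      rw [hF₀P, Set.ncard_image_of_injective _ hinj]
    -- a non-trivial element of `P`
    obtain ⟨x, hxP, hx1⟩ : ∃ x ∈ P, x ≠ 1 := by
      have := P.ne_bot_of_dvd_card hG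
      by_contra hcon
      push Not at hcon
      exact this ((Subgroup.eq_bot_iff_forall _).2 fun x hx => hcon x hx)
    -- elements of `P` have order a power of `p`
    have hpow : ∀ y ∈ P, ∃ k : ℕ, orderOf y = p ^ k := by
      intro y hy
      obtain ⟨k, hk⟩ := P.isPGroup' ⟨y, hy⟩
      have h1 : y ^ p ^ k = 1 := by
        have := congrArg Subtype.val hk
        simpa using this
      exact (Nat.dvd_prime_pow hp.out).1 (orderOf_dvd_of_pow_eq_one h1) |>.imp fun j hj => hj.2
    have hdvd : ∀ y ∈ P, y ≠ 1 → p ∣ orderOf y := by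
      intro y hy hy1
      obtain ⟨k, hk⟩ := hpow y hy
      rw [hk]
      refine dvd_pow_self p ?_
      rintro rfl
      rw [pow_zero, orderOf_eq_one_iff] at hk
      exact hy1 hk
    have hzP : z ∉ P := by
      intro h
      have h1 := hdvd z h hz1
      have h2 := Nat.dvd_gcd h1 dvd_rfl
      rw [hzp.gcd_eq_one] at h2
      exact hp.out.one_lt.ne' (Nat.dvd_one.1 h2)
    have hcop : ∀ y ∈ P, y ≠ 1 → p ∣ orderOf (z * y) := by
      intro y hy hy1
      obtain ⟨k, hk⟩ := hpow y hy
      rw [(hz y).orderOf_mul_eq_mul_orderOf_of_coprime (by rw [hk]; exact hzp.pow_right k)]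
      exact (hdvd y hy hy1).mul_left _
    have hcop' : ∀ y ∈ P, y ≠ 1 → p ∣ orderOf (z⁻¹ * y) := by
      intro y hy hy1
      have h1 := hcop y⁻¹ (P.inv_mem hy) (by simpa using hy1)
      rw [← orderOf_inv, mul_inv_rev, inv_inv, ((hz y).inv_left).eq.symm] at h1
      exact h1
    set F₁ : Set G := insert (z * x) ((P : Set G) \ {x}) with hF₁
    have hnot : z * x ∉ (P : Set G) \ {x} := by
      intro h
      apply hzP
      have h1 := P.mul_mem h.1 (P.inv_mem hxP)
      rw [mul_inv_cancel_right] at h1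
      exact h1
    have hsing : PSingular p F₁ := by
      intro a ha b hb hab
      rcases ha with rfl | ha <;> rcases hb with rfl | hb
      · exact absurd rfl hab
      · have e : z * x * b⁻¹ = z * (x * b⁻¹) := by group
        rw [e]
        refine hcop _ (P.mul_mem hxP (P.inv_mem hb.1)) ?_
        intro h
        exact hb.2 (mul_inv_eq_one.1 h).symm
      · have e : a * (z * x)⁻¹ = z⁻¹ * (a * x⁻¹) := by
          rw [mul_inv_rev, ← mul_assoc, ((hz (a * x⁻¹)).inv_left).eq]
        rw [e]
        refine hcop' _ (P.mul_mem ha.1 (P.inv_mem hxP)) ?_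
        intro h
        exact ha.2 (mul_inv_eq_one.1 h)
      · refine hdvd _ (P.mul_mem ha.1 (P.inv_mem hb.1)) ?_
        intro h
        exact hab (mul_inv_eq_one.1 h)
    have hcard₁ : F₁.ncard = (P : Set G).ncard := by
      rw [hF₁, Set.ncard_insert_of_notMem hnot, Set.ncard_sdiff_singleton_add_one hxP]
    refine ⟨F₁, ⟨hsing, fun F' hF' => ?_⟩, ?_⟩
    · rw [hcard₁, ← hcard]
      exact hF₀.2 F' hF'
    · rintro ⟨Q, a, b, hQ⟩
      have h1 : (1 : G) ∈ F₁ := Set.mem_insert_of_mem _ ⟨P.one_mem, by simpa using hx1.symm⟩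
      have h2 : z * x ∈ F₁ := Set.mem_insert _ _
      rw [hQ] at h1 h2
      obtain ⟨q₀, hq₀, e₀⟩ := h1
      obtain ⟨q₁, hq₁, e₁⟩ := h2
      simp only at e₀ e₁
      have e₂ : z * x = a * (q₁ * q₀⁻¹) * a⁻¹ := by
        have hb : b = (a * q₀)⁻¹ := eq_inv_of_mul_eq_one_right e₀
        rw [← e₁, hb]
        group
      obtain ⟨k, hk⟩ := Q.isPGroup' ⟨q₁ * q₀⁻¹, Q.mul_mem hq₁ (Q.inv_mem hq₀)⟩
      have hk' : (q₁ * q₀⁻¹) ^ p ^ k = 1 := by
        have := congrArg Subtype.val hk
        simpa using this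
      have h3 : (z * x) ^ p ^ k = 1 := by
        rw [e₂, conj_pow, hk']
        group
      obtain ⟨j, hj⟩ := hpow x hxP
      have h4 := orderOf_dvd_of_pow_eq_one h3
      rw [(hz x).orderOf_mul_eq_mul_orderOf_of_coprime (by rw [hj]; exact hzp.pow_right j)] at h4
      have h5 : orderOf z ∣ p ^ k := dvd_of_mul_right_dvd h4
      have h6 : orderOf z = 1 := Nat.Coprime.eq_one_of_dvd (hzp.pow_right k) h5
      exact hz1 (orderOf_eq_one_iff.1 h6)
  · exact ⟨F₀, hF₀, hT⟩

/-- **Theorem.** Let `K` be a finite field of characteristic `p` with `q ≥ 3` elements and `n ≥ 2`.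
Then `GL_{n,q}` has a maximum `p`-singular family that is not a double-translate of a Sylow
`p`-subgroup. -/
theorem result (p : ℕ) [hp : Fact p.Prime] (K : Type*) [Field K] [Finite K] [CharP K p]
    (hK : 3 ≤ Nat.card K) (n : ℕ) (hn : 2 ≤ n) :
    ∃ F : Set (Matrix.GeneralLinearGroup (Fin n) K),
      IsMaximum p F ∧ ¬ IsDoubleTranslate p F := by
  classical
  have := Fintype.ofFinite K
  have : Finite (Matrix.GeneralLinearGroup (Fin n) K) := by
    unfold Matrix.GeneralLinearGroup
    infer_instance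
  -- a scalar `μ ≠ 0, 1`
  obtain ⟨μ, hμ⟩ : ∃ μ : Kˣ, μ ≠ 1 := by
    have h1 : 1 < Nat.card Kˣ := by
      rw [Nat.card_units]; omega
    have : Nontrivial Kˣ := Finite.one_lt_card_iff_nontrivial.1 h1
    exact exists_ne 1
  have hμp : (orderOf μ).Coprime p := by
    rw [Nat.coprime_comm, hp.out.coprime_iff_not_dvd]
    intro h
    have h1 : p ∣ Nat.card Kˣ := h.trans (orderOf_dvd_natCard μ)
    have h2 : p ∣ Nat.card K := by
      obtain ⟨k, hk⟩ : ∃ k : ℕ+, Fintype.card K = p ^ (k : ℕ) := by
        obtain ⟨k, _, hk⟩ := FiniteField.card K p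
        exact ⟨k, hk⟩
      rw [Nat.card_eq_fintype_card, hk]
      exact dvd_pow_self p k.pos.ne'
    rw [Nat.card_units] at h1
    have h3 : 1 ≤ Nat.card K := by omega
    have h4 : p ∣ Nat.card K - (Nat.card K - 1) := Nat.dvd_sub h2 h1
    have h5 : Nat.card K - (Nat.card K - 1) = 1 := by omega
    rw [h5] at h4
    exact hp.out.one_lt.ne' (Nat.dvd_one.1 h4)
  have hinj : Function.Injective (Matrix.GeneralLinearGroup.scalar (Fin n) : Kˣ →* _) := by
    intro a b hab
    have h1 := congrArg (fun g : Matrix.GeneralLinearGroup (Fin n) K =>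
      (g : Matrix (Fin n) (Fin n) K) ⟨0, by omega⟩ ⟨0, by omega⟩) hab
    ext
    simpa [Matrix.GeneralLinearGroup.scalar] using h1
  refine exists_not_translate p (Matrix.GeneralLinearGroup.scalar (Fin n) μ)
    (fun g => Matrix.GeneralLinearGroup.scalar_commute _ _) ?_ ?_ ?_
  · intro h
    apply hμ
    apply hinj
    rw [h, map_one]
  · rw [orderOf_injective _ hinj]
    exact hμp
  · -- an element of order `p`
    have hne : (⟨0, by omega⟩ : Fin n) ≠ ⟨1, by omega⟩ := by
      intro h
      have := congrArg Fin.val h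
      simp at this
    let T : K → Matrix (Fin n) (Fin n) K := Matrix.transvection ⟨0, by omega⟩ ⟨1, by omega⟩
    have hT : ∀ a b, T a * T b = T (a + b) := fun a b =>
      Matrix.transvection_mul_transvection_same _ _ hne a b
    have hT0 : T 0 = 1 := Matrix.transvection_zero _ _
    let x : Matrix.GeneralLinearGroup (Fin n) K :=
      ⟨T 1, T (-1), by rw [hT]; simp [hT0], by rw [hT]; simp [hT0]⟩
    have hxval : (x : Matrix (Fin n) (Fin n) K) = T 1 := rfl
    have hpow : ∀ k : ℕ, ((x ^ k : Matrix.GeneralLinearGroup (Fin n) K) :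
        Matrix (Fin n) (Fin n) K) = T k := by
      intro k
      induction k with
      | zero => simp [hT0]
      | succ k ih =>
        rw [pow_succ, Units.val_mul, ih, hxval, hT]
        push_cast
        rfl
    have hx : orderOf x = p := by
      refine orderOf_eq_prime ?_ ?_
      · ext1
        rw [hpow, CharP.cast_eq_zero, hT0]
        rfl
      · intro h
        have h1 : T 1 = 1 := by rw [← hxval, h]; rfl
        have h2 := congrFun (congrFun h1 ⟨0, by omega⟩) ⟨1, by omega⟩
        simp [T, Matrix.transvection, hne] at h2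
    rw [← hx]
    exact orderOf_dvd_natCard x

end Pool.Agent.Results.MP_020c1a_co.NotTranslate
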